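import Pool.Agent.Y451.Seg6

/-!
# The two-number and the mod 2 Betti number of a compact symmetric space can differ

`IsSymmetric`, `twoNumber`, `totalBetti` and `SingularCohomology` are the definitions of
`Pool.Agent.Helper381.Defs`, recalled here.

* `IsSymmetryAt x s`: the isometry `s : M ≃ᵢ M` satisfies `s ∘ s = id` and has `x` as an isolated
  fixed point (the usual characterisation of the geodesic symmetry at `x`);
* `IsSymmetric M`: there is a symmetry at every point of `M`;
* `twoNumber M`: the supremum in `ℕ∞` of the cardinalities of the sets `A` in `M` with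
  `s_x y = y` for all `x` and `y` in `A`;
* `totalBetti k M`: the sum in `ℕ∞` of the dimensions of the singular cohomology groups
  `H^n(M; k)`.
-/

namespace Pool.Agent.Results.MP_efd99a_gt.TwoNumberCounterexample

open Pool.Agent.Helper381 Bundle Manifold
open scoped ContDiff

/-- The metric space `M` is a smooth Riemannian manifold of dimension `d`: it has a smooth atlas
modelled on `ℝ^d` and a smooth Riemannian metric whose Riemannian distance is the distance
of `M`. -/
def IsRiemannian (d : ℕ) (M : Type) [MetricSpace M] : Prop :=
  ∃ (_ : ChartedSpace (EuclideanSpace ℝ (Fin d)) M) (_ : IsManifold (𝓡 d) ∞ M)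
    (_ : RiemannianBundle (fun x : M => TangentSpace (𝓡 d) x)),
    IsContMDiffRiemannianBundle (𝓡 d) ∞ (EuclideanSpace ℝ (Fin d))
      (fun x : M => TangentSpace (𝓡 d) x) ∧
    IsRiemannianManifold (𝓡 d) M

/-- There is a connected compact Riemannian symmetric space `M` of dimension `5` whose two-number
is `8` while its total mod `2` Betti number is at least `10`. So the equality
`#₂ M = dim H(M; ℤ/2)` does not hold for all connected compact symmetric spaces. (The space is the
set of unit decomposable tensors `x ⊗ y ⊗ z` in `ℝ² ⊗ ℝ³ ⊗ ℝ³` with the induced Riemannian metric,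
that is, the quotient of `S¹ × S² × S²` by the even sign changes.) -/
theorem result :
    ∃ (M : Type) (_ : MetricSpace M), CompactSpace M ∧ ConnectedSpace M ∧ IsRiemannian 5 M ∧
      IsSymmetric M ∧ twoNumber M = 8 ∧ 10 ≤ totalBetti (ZMod 2) M :=
  ⟨Pool.Agent.Y451.M5, inferInstance, inferInstance, inferInstance,
    ⟨inferInstance, inferInstance, inferInstance, inferInstance, inferInstance⟩,
    Pool.Agent.Y451.isSymmetric, Pool.Agent.Y451.twoNumber_eq, Pool.Agent.Y451.ten_le⟩

end Pool.Agent.Results.MP_efd99a_gt.TwoNumberCounterexample
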